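import Pool.Agent.Helper86.NF.Arc

/-!
# A fraction with a suitable denominator, and the count of multiples
-/

set_option autoImplicit false

namespace Pool.Agent.Helper86.NF

open Finset Polynomial Pool.Agent.Helper86.AA

theorem exists_frac {ω : ℝ} (hω : Irrational ω) {f : ℤ[X]} (f0 : f ≠ 0) (D : ℕ)
    (hD : 1 ≤ D) (hf : f.natDegree ≤ D) (hr : aeval ω f = 0) :
    ∃ A : ℝ, 0 < A ∧ ∀ T : ℕ, 1 ≤ T → ∃ (q : ℕ) (p : ℤ), 1 ≤ q ∧ q ≤ T ∧ IsCoprime (q : ℤ) p ∧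
      |(q : ℝ) * ω - p| * (T + 1) ≤ 1 ∧ (T : ℝ) ≤ A * (q : ℝ) ^ (D - 1) := by
  have hr' : eval ω (map (algebraMap ℤ ℝ) f) = 0 := by
    rw [Polynomial.eval_map, ← Polynomial.aeval_def]; exact hr
  obtain ⟨A, hA, hL⟩ := Liouville.exists_pos_real_of_irrational_root hω f0 hr'
  refine ⟨A, hA, fun T hT => ?_⟩
  obtain ⟨j, k, hk0, hkT, hkj⟩ := Real.exists_int_int_abs_mul_sub_le ω (show 0 < T by omega)
  -- reduce
  have hk0' : k ≠ 0 := hk0.ne'
  set g : ℤ := (Int.gcd k j : ℤ) with hg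
  have hg0 : 0 < g := by
    rw [hg]; exact_mod_cast Int.gcd_pos_of_ne_zero_left j hk0'
  obtain ⟨k', hk'⟩ : g ∣ k := Int.gcd_dvd_left _ _
  obtain ⟨p, hp⟩ : g ∣ j := Int.gcd_dvd_right _ _
  have hk'0 : 0 < k' := by
    by_contra hcon
    have : g * k' ≤ 0 := mul_nonpos_of_nonneg_of_nonpos hg0.le (not_lt.mp hcon)
    omega
  have hk'k : k' ≤ k := by
    rw [hk']; nlinarith
  have hcop : IsCoprime k' p := by
    rw [Int.isCoprime_iff_gcd_eq_one]
    have h1 : Int.gcd (g * k') (g * p) = g.natAbs * Int.gcd k' p := Int.gcd_mul_left g k' p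
    rw [← hk', ← hp] at h1
    have h2 : g.natAbs = Int.gcd k j := by rw [hg]; simp
    rw [h2] at h1
    have h3 : 0 < Int.gcd k j := Int.gcd_pos_of_ne_zero_left j hk0'
    exact (Nat.eq_of_mul_eq_mul_left h3 (by rw [mul_one]; exact h1)).symm
  obtain ⟨q, rfl⟩ : ∃ q : ℕ, k' = q := ⟨k'.toNat, (Int.toNat_of_nonneg hk'0.le).symm⟩
  have hq1 : 1 ≤ q := by exact_mod_cast hk'0
  have hg1 : (1 : ℝ) ≤ g := by exact_mod_cast hg0
  have hT0 : (0 : ℝ) < (T : ℝ) + 1 := by positivity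
  have happ : |(q : ℝ) * ω - p| * (T + 1) ≤ 1 := by
    have h1 : (k : ℝ) * ω - j = g * ((q : ℝ) * ω - p) := by
      rw [hk', hp]; push_cast; ring
    rw [h1, abs_mul, abs_of_pos (by linarith : (0 : ℝ) < g)] at hkj
    have h2 : |(q : ℝ) * ω - p| ≤ 1 / ((T : ℝ) + 1) := by
      refine le_trans ?_ hkj
      have := abs_nonneg ((q : ℝ) * ω - p)
      nlinarith
    calc |(q : ℝ) * ω - p| * (T + 1) ≤ 1 / ((T : ℝ) + 1) * (T + 1) := by gcongr
      _ = 1 := by field_simp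
  refine ⟨q, p, hq1, ?_, hcop, happ, ?_⟩
  · exact_mod_cast hk'k.trans hkT
  · have h1 := hL p (q - 1)
    have h2 : (((q - 1 : ℕ) : ℝ) + 1) = q := by
      rw [Nat.cast_sub hq1]; push_cast; ring
    rw [h2] at h1
    have hq0 : (0 : ℝ) < q := by exact_mod_cast hq1
    have hq1' : (1 : ℝ) ≤ q := by exact_mod_cast hq1
    have h3 : |ω - p / q| = |(q : ℝ) * ω - p| / q := by
      rw [← abs_of_pos hq0, ← abs_div, abs_of_pos hq0]
      congr 1
      field_simp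
    rw [h3] at h1
    have h4 : (q : ℝ) ^ f.natDegree ≤ (q : ℝ) ^ D := pow_le_pow_right₀ hq1' hf
    have h5 : (q : ℝ) ^ D = (q : ℝ) ^ (D - 1) * q := by
      rw [← pow_succ]; congr 1; omega
    have h6 : (1 : ℝ) ≤ (q : ℝ) ^ (D - 1) * (|(q : ℝ) * ω - p| * A) := by
      calc (1 : ℝ) ≤ (q : ℝ) ^ f.natDegree * (|(q : ℝ) * ω - p| / q * A) := h1
        _ ≤ (q : ℝ) ^ D * (|(q : ℝ) * ω - p| / q * A) := by gcongr
        _ = (q : ℝ) ^ (D - 1) * (|(q : ℝ) * ω - p| * A) := by rw [h5]; field_simp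
    have h7 : (T : ℝ) + 1 ≤ A * (q : ℝ) ^ (D - 1) := by
      calc (T : ℝ) + 1 = 1 * (T + 1) := (one_mul _).symm
        _ ≤ (q : ℝ) ^ (D - 1) * (|(q : ℝ) * ω - p| * A) * (T + 1) := by gcongr
        _ = A * (q : ℝ) ^ (D - 1) * (|(q : ℝ) * ω - p| * (T + 1)) := by ring
        _ ≤ A * (q : ℝ) ^ (D - 1) * 1 := by gcongr
        _ = A * (q : ℝ) ^ (D - 1) := mul_one _
    linarith

open Classical in
/-- the `t ∈ [-T, T]` for which the first `N` digits of `t ω + c` have at most `s` values -/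
noncomputable def badt (b N s T : ℕ) (ω c : ℝ) : Finset ℤ :=
  (Finset.Icc (-(T : ℤ)) T).filter fun t =>
    ((Finset.range N).image (digit b (t * ω + c))).card ≤ s

theorem card_badt {b n N s T q : ℕ} (hb : 2 ≤ b) (hnN : n ≤ N) (hq : 1 ≤ q) (hqb : q < b ^ (n + 1))
    {ω c : ℝ} {p : ℤ} (hpq : IsCoprime (q : ℤ) p) (happ : |(q : ℝ) * ω - p| * (T + 1) ≤ 1) :
    (badt b N s T ω c).card ≤ (b ^ s * s ^ n) * ((b + 2) * (2 * (T / q) + 2)) := by
  classical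
  have hsub : badt b N s T ω c ⊆ (words b n s).biUnion fun d => wordSet b n T ω c (ext d) := by
    intro t ht
    rw [badt, Finset.mem_filter] at ht
    have h1 : ((Finset.range n).image (digit b (t * ω + c))).card ≤ s :=
      (Finset.card_le_card (Finset.image_subset_image (Finset.range_mono hnN))).trans ht.2
    obtain ⟨d, hd, hde⟩ := exists_word b n s (by omega) _ h1
    rw [Finset.mem_biUnion]
    refine ⟨d, hd, ?_⟩
    rw [wordSet, Finset.mem_filter]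
    exact ⟨ht.1, hde⟩
  refine (Finset.card_le_card hsub).trans (Finset.card_biUnion_le.trans ?_)
  calc ∑ d ∈ words b n s, (wordSet b n T ω c (ext d)).card
      ≤ ∑ _d ∈ words b n s, (b + 2) * (2 * (T / q) + 2) :=
        Finset.sum_le_sum fun d _ => card_wordSet hb hq hqb hpq happ _
    _ = (words b n s).card * ((b + 2) * (2 * (T / q) + 2)) := by rw [Finset.sum_const, smul_eq_mul]
    _ ≤ _ := Nat.mul_le_mul_right _ (card_words b n s (by omega))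

/-- the count in one base for one coordinate -/
theorem badt_real {ω : ℝ} (hω : Irrational ω) {f : ℤ[X]} (f0 : f ≠ 0) (D : ℕ)
    (hD : 2 ≤ D) (hf : f.natDegree ≤ D) (hr : aeval ω f = 0) :
    ∃ A : ℝ, 1 ≤ A ∧ ∀ (m b T : ℕ) (c : ℝ), 2 ≤ m → 2 ≤ b → 1 ≤ T →
      ((badt b (Nat.log b T) (min b m - 1) T ω c).card : ℝ) ≤
        8 * A * (b : ℝ) ^ m * (T : ℝ) ^ (1 - (1 - th m) / (D - 1)) := by
  obtain ⟨A, hA, hfrac⟩ := exists_frac hω f0 D (by omega) hf hr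
  refine ⟨max A 1, le_max_right _ _, fun m b T c hm hb hT => ?_⟩
  obtain ⟨q, p, hq1, hqT, hpq, happ, hTq⟩ := hfrac T hT
  have hb' : (2 : ℝ) ≤ b := by exact_mod_cast hb
  have hT' : (1 : ℝ) ≤ T := by exact_mod_cast hT
  have hq' : (1 : ℝ) ≤ q := by exact_mod_cast hq1
  have hD' : (2 : ℝ) ≤ D := by exact_mod_cast hD
  have hth0 := th_nonneg hm
  have hth1 := th_le_one hm
  have h1 := card_badt (b := b) (n := Nat.log b q) (N := Nat.log b T) (s := min b m - 1) (T := T)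
    (c := c) hb (Nat.log_mono_right hqT) hq1 (Nat.lt_pow_succ_log_self (by omega) q) hpq happ
  have h2 : ((badt b (Nat.log b T) (min b m - 1) T ω c).card : ℝ) ≤
      ((((b ^ (min b m - 1) * (min b m - 1) ^ (Nat.log b q)) * ((b + 2) * (2 * (T / q) + 2)) : ℕ)) : ℝ) := by
    exact_mod_cast h1
  refine h2.trans ?_
  push_cast
  have h3 : (b : ℝ) ^ (min b m - 1) ≤ (b : ℝ) ^ (m - 1) :=
    pow_le_pow_right₀ (by linarith) (by omega)
  have h4 := s_pow_le hb hm hq1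
  have h5 : ((T / q : ℕ) : ℝ) ≤ (T : ℝ) / q := Nat.cast_div_le
  have h6 : (1 : ℝ) ≤ (T : ℝ) / q := by
    rw [le_div_iff₀ (by linarith), one_mul]; exact_mod_cast hqT
  have h7 : ((b : ℝ) + 2) * (2 * ((T / q : ℕ) : ℝ) + 2) ≤ (2 * b) * (4 * ((T : ℝ) / q)) := by
    gcongr <;> linarith
  have h8 : (b : ℝ) ^ m = (b : ℝ) ^ (m - 1) * b := by
    rw [← pow_succ]; congr 1; omega
  set γ : ℝ := (1 - th m) / (D - 1) with hγ
  have hγ0 : 0 ≤ γ := div_nonneg (by linarith) (by linarith)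
  have hγ1 : γ ≤ 1 := by
    rw [hγ, div_le_one (by linarith)]; linarith
  have hγD : γ * ((D : ℝ) - 1) = 1 - th m := by
    rw [hγ]; exact div_mul_cancel₀ _ (by linarith)
  -- q ^ th * (T / q) ≤ A * T ^ (1 - γ)
  have h9 : (q : ℝ) ^ (th m) * ((T : ℝ) / q) ≤ max A 1 * (T : ℝ) ^ (1 - γ) := by
    have h10 : (q : ℝ) ^ (1 - th m) = ((q : ℝ) ^ (D - 1)) ^ γ := by
      rw [← Real.rpow_natCast, ← Real.rpow_mul (by linarith), Nat.cast_sub (by omega), Nat.cast_one,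
        mul_comm, hγD]
    have h11 : ((T : ℝ) / max A 1) ^ γ ≤ (q : ℝ) ^ (1 - th m) := by
      rw [h10]
      apply Real.rpow_le_rpow (by positivity) _ hγ0
      rw [div_le_iff₀ (by positivity)]
      calc (T : ℝ) ≤ A * (q : ℝ) ^ (D - 1) := hTq
        _ ≤ max A 1 * (q : ℝ) ^ (D - 1) := by gcongr; exact le_max_left _ _
        _ = (q : ℝ) ^ (D - 1) * max A 1 := mul_comm _ _
    have hA1 : (1 : ℝ) ≤ max A 1 := le_max_right _ _
    have h12 : ((T : ℝ) / max A 1) ^ γ = (T : ℝ) ^ γ / (max A 1) ^ γ :=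
      Real.div_rpow (by linarith) (by linarith) _
    have h13 : (max A 1) ^ γ ≤ max A 1 := by
      calc (max A 1) ^ γ ≤ (max A 1) ^ (1 : ℝ) := Real.rpow_le_rpow_of_exponent_le hA1 hγ1
        _ = max A 1 := Real.rpow_one _
    have hTγ : 0 < (T : ℝ) ^ γ := Real.rpow_pos_of_pos (by linarith) _
    have h14 : (T : ℝ) ^ γ ≤ max A 1 * (q : ℝ) ^ (1 - th m) := by
      rw [h12, div_le_iff₀ (Real.rpow_pos_of_pos (by linarith) _)] at h11
      refine h11.trans ?_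
      rw [mul_comm]
      gcongr
    have h15 : (q : ℝ) ^ (th m) * (q : ℝ) ^ (1 - th m) = q := by
      rw [← Real.rpow_add (by linarith)]
      norm_num
    have h16 : (T : ℝ) ^ (1 - γ) * (T : ℝ) ^ γ = T := by
      rw [← Real.rpow_add (by linarith)]
      norm_num
    have hq1γ : 0 < (q : ℝ) ^ (1 - th m) := Real.rpow_pos_of_pos (by linarith) _
    have hT1γ : 0 < (T : ℝ) ^ (1 - γ) := Real.rpow_pos_of_pos (by linarith) _
    have h17 : (q : ℝ) ^ (th m) * ((T : ℝ) / q) * (q : ℝ) ^ (1 - th m) = T := by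
      calc _ = ((q : ℝ) ^ (th m) * (q : ℝ) ^ (1 - th m)) * ((T : ℝ) / q) := by ring
        _ = T := by rw [h15]; field_simp
    have h18 : (q : ℝ) ^ (th m) * ((T : ℝ) / q) * (q : ℝ) ^ (1 - th m)
        ≤ (max A 1 * (T : ℝ) ^ (1 - γ)) * (q : ℝ) ^ (1 - th m) := by
      rw [h17]
      calc (T : ℝ) = (T : ℝ) ^ (1 - γ) * (T : ℝ) ^ γ := h16.symm
        _ ≤ (T : ℝ) ^ (1 - γ) * (max A 1 * (q : ℝ) ^ (1 - th m)) := by gcongr
        _ = _ := by ring
    exact le_of_mul_le_mul_right h18 hq1γ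
  calc (b : ℝ) ^ (min b m - 1) * ((min b m - 1 : ℕ) : ℝ) ^ (Nat.log b q) *
        (((b : ℝ) + 2) * (2 * ((T / q : ℕ) : ℝ) + 2))
      ≤ (b : ℝ) ^ (m - 1) * (q : ℝ) ^ (th m) * ((2 * b) * (4 * ((T : ℝ) / q))) := by gcongr
    _ = 8 * (b : ℝ) ^ m * ((q : ℝ) ^ (th m) * ((T : ℝ) / q)) := by rw [h8]; ring
    _ ≤ 8 * (b : ℝ) ^ m * (max A 1 * (T : ℝ) ^ (1 - γ)) := by gcongr
    _ = _ := by ring

end Pool.Agent.Helper86.NF
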