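import Pool.Agent.Helper86.AA.Real

/-!
# Multiples of a number close to a fraction: how many have a given digit word
-/

set_option autoImplicit false

namespace Pool.Agent.Helper86.NF

open Finset Pool.Agent.Helper86.AA

theorem cellN_shift (b : ℕ) (k : ℤ) (d : ℕ → ℤ) (n : ℕ) :
    cellN b k d n = k * (b : ℤ) ^ n + cellN b 0 d n := by
  induction n with
  | zero => simp [cellN]
  | succ n ih => rw [cellN, ih, cellN, pow_succ]; ring

open Classical in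
/-- the `t ∈ [-T, T]` for which the first `n` digits of `t ω + c` are `d` -/
noncomputable def wordSet (b n T : ℕ) (ω c : ℝ) (d : ℕ → ℤ) : Finset ℤ :=
  (Finset.Icc (-(T : ℤ)) T).filter fun t => ∀ i < n, digit b (t * ω + c) i = d i

theorem w_mem {b n T q : ℕ} (hb : 2 ≤ b) (hq : 1 ≤ q) (hqb : q < b ^ (n + 1)) {ω c : ℝ} {p : ℤ}
    (happ : |(q : ℝ) * ω - p| * (T + 1) ≤ 1) {d : ℕ → ℤ} {t : ℤ} (ht : t ∈ wordSet b n T ω c d) :
    t * p - q * ⌊(t : ℝ) * ω + c⌋ ∈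
      Finset.Icc ⌊(q : ℝ) * ((cellN b 0 d n : ℝ) / (b : ℝ) ^ n - c)⌋
        (⌊(q : ℝ) * ((cellN b 0 d n : ℝ) / (b : ℝ) ^ n - c)⌋ + b + 1) := by
  rw [wordSet, Finset.mem_filter, Finset.mem_Icc] at ht
  obtain ⟨⟨ht1, ht2⟩, hd⟩ := ht
  set x : ℝ := (t : ℝ) * ω + c with hx
  have hbn : (0 : ℝ) < (b : ℝ) ^ n := by positivity
  have hq0 : (0 : ℝ) < q := by exact_mod_cast hq
  have h1 := floor_eq_cellN b x d n hd
  rw [cellN_shift] at h1
  have h2 := Int.floor_le (x * (b : ℝ) ^ n)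
  have h3 := Int.lt_floor_add_one (x * (b : ℝ) ^ n)
  rw [h1] at h2 h3
  push_cast at h2 h3
  set J : ℝ := (cellN b 0 d n : ℝ) with hJ
  -- x - ⌊x⌋ in [J / b^n, (J + 1) / b^n)
  have h4 : J / (b : ℝ) ^ n ≤ x - ⌊x⌋ := by
    rw [div_le_iff₀ hbn, sub_mul]; linarith
  have h5 : x - ⌊x⌋ < J / (b : ℝ) ^ n + 1 / (b : ℝ) ^ n := by
    rw [← add_div, lt_div_iff₀ hbn, sub_mul]; linarith
  have h6 : (q : ℝ) * (1 / (b : ℝ) ^ n) < b := by
    rw [mul_one_div, div_lt_iff₀ hbn]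
    have : (q : ℝ) < (b : ℝ) ^ (n + 1) := by exact_mod_cast hqb
    rw [pow_succ] at this
    linarith
  -- |t| |q ω - p| < 1
  have h7 : |(t : ℝ) * ((q : ℝ) * ω - p)| < 1 := by
    rw [abs_mul]
    have ht3 : |(t : ℝ)| ≤ T := by
      rw [abs_le]
      constructor
      · exact_mod_cast ht1
      · exact_mod_cast ht2
    rcases eq_or_lt_of_le (abs_nonneg ((q : ℝ) * ω - p)) with h0 | h0
    · rw [← h0]; simp
    · calc |(t : ℝ)| * |(q : ℝ) * ω - p| ≤ T * |(q : ℝ) * ω - p| := by gcongr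
        _ < |(q : ℝ) * ω - p| * (T + 1) := by nlinarith
        _ ≤ 1 := happ
  rw [abs_lt] at h7
  have h8 : (((t * p - q * ⌊x⌋ : ℤ)) : ℝ) = (q : ℝ) * (x - ⌊x⌋ - c) - (t : ℝ) * ((q : ℝ) * ω - p) := by
    push_cast
    rw [hx]
    ring
  set α : ℝ := (q : ℝ) * (J / (b : ℝ) ^ n - c) with hα
  have h9 : α - 1 < ((t * p - q * ⌊x⌋ : ℤ) : ℝ) := by
    rw [h8, hα]
    have : (q : ℝ) * (J / (b : ℝ) ^ n) ≤ (q : ℝ) * (x - ⌊x⌋) := by gcongr
    nlinarith [h7.1, h7.2]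
  have h10 : ((t * p - q * ⌊x⌋ : ℤ) : ℝ) < α + b + 1 := by
    rw [h8, hα]
    have : (q : ℝ) * (x - ⌊x⌋) < (q : ℝ) * (J / (b : ℝ) ^ n + 1 / (b : ℝ) ^ n) := by gcongr
    nlinarith [h7.1, h7.2]
  have h11 := Int.floor_le α
  have h12 := Int.lt_floor_add_one α
  rw [Finset.mem_Icc]
  constructor
  · have : ((⌊α⌋ - 1 : ℤ) : ℝ) < ((t * p - q * ⌊x⌋ : ℤ) : ℝ) := by push_cast at h9 ⊢; linarith
    have := Int.cast_lt.mp this
    linarith
  · have : ((t * p - q * ⌊x⌋ : ℤ) : ℝ) < ((⌊α⌋ + b + 2 : ℤ) : ℝ) := by push_cast at h10 ⊢; linarith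
    have := Int.cast_lt.mp this
    linarith

theorem card_wordSet {b n T q : ℕ} (hb : 2 ≤ b) (hq : 1 ≤ q) (hqb : q < b ^ (n + 1)) {ω c : ℝ} {p : ℤ}
    (hpq : IsCoprime (q : ℤ) p) (happ : |(q : ℝ) * ω - p| * (T + 1) ≤ 1) (d : ℕ → ℤ) :
    (wordSet b n T ω c d).card ≤ (b + 2) * (2 * (T / q) + 2) := by
  classical
  have hq0 : (0 : ℤ) < q := by exact_mod_cast hq
  set α0 : ℤ := ⌊(q : ℝ) * ((cellN b 0 d n : ℝ) / (b : ℝ) ^ n - c)⌋ with hα0
  have h1 : (wordSet b n T ω c d).card ≤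
      ((Finset.Icc α0 (α0 + b + 1)) ×ˢ (Finset.Icc (-((T / q : ℕ) : ℤ) - 1) ((T / q : ℕ) : ℤ))).card := by
    refine Finset.card_le_card_of_injOn
      (fun t : ℤ => (t * p - q * ⌊(t : ℝ) * ω + c⌋, t / (q : ℤ))) ?_ ?_
    · intro t ht
      rw [Finset.mem_coe] at ht
      have hw := w_mem hb hq hqb happ ht
      rw [wordSet, Finset.mem_filter, Finset.mem_Icc] at ht
      obtain ⟨⟨ht1, ht2⟩, -⟩ := ht
      rw [Finset.mem_coe, Finset.mem_product]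
      refine ⟨hw, ?_⟩
      rw [Finset.mem_Icc]
      have h2 : (T : ℤ) < q * (((T / q : ℕ) : ℤ) + 1) := by
        have := Nat.lt_mul_div_succ T (by omega : 0 < q)
        exact_mod_cast this
      constructor
      · rw [Int.le_ediv_iff_mul_le hq0]
        nlinarith
      · have : t / (q : ℤ) < ((T / q : ℕ) : ℤ) + 1 := by
          rw [Int.ediv_lt_iff_lt_mul hq0]
          nlinarith
        simp only
        linarith
    · intro t _ t' _ htt
      simp only [Prod.mk.injEq] at htt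
      obtain ⟨h2, h3⟩ := htt
      have h4 : (q : ℤ) ∣ (t - t') * p := by
        refine ⟨⌊(t : ℝ) * ω + c⌋ - ⌊(t' : ℝ) * ω + c⌋, ?_⟩
        linarith
      have h5 : (q : ℤ) ∣ (t - t') := hpq.dvd_of_dvd_mul_right h4
      have h6 : t % (q : ℤ) = t' % (q : ℤ) := Int.emod_eq_emod_iff_emod_sub_eq_zero.mpr (Int.emod_eq_zero_of_dvd h5)
      have h7 := Int.mul_ediv_add_emod t q
      have h8 := Int.mul_ediv_add_emod t' q
      rw [h3, h6] at h7
      linarith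
  refine h1.trans (le_of_eq ?_)
  rw [Finset.card_product, Int.card_Icc, Int.card_Icc]
  congr 1
  · omega
  · omega

end Pool.Agent.Helper86.NF
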