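import Pool.Agent.Helper86.NF.Poly
import Pool.Agent.Helper86.AA.Final

/-!
# Almost all integer combinations of algebraic numbers
-/

set_option autoImplicit false

namespace Pool.Agent.Helper86.NF

open Finset Polynomial Pool.Agent.Helper86.AA

/-- the exceptional integer vectors -/
def Exc {r : ℕ} (ω : Fin r → ℝ) (m M H : ℕ) : Set (Fin r → ℤ) :=
  {a | (∀ i, |a i| ≤ (H : ℤ)) ∧ ¬ (Irrational (∑ i, (a i : ℝ) * ω i) ∧ ∀ b : ℕ, 2 ≤ b →
    min b m ≤ ((Finset.range (M + Nat.log b H)).image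
      (digit b (∑ i, (a i : ℝ) * ω i))).card)}

theorem exc_cases {r : ℕ} (ω : Fin r → ℝ) (m κ M Δ : ℕ)
    (hM : ∀ b : ℕ, M ≤ b → ∀ ξ : ℝ, Irrational ξ →
      ∀ P : ℤ[X], P ≠ 0 → P.natDegree ≤ Δ → (∀ i, |P.coeff i| ≤ (b : ℤ) ^ κ) →
        Polynomial.aeval ξ P = 0 → m ≤ ((Finset.range M).image (digit b ξ)).card)
    (H CH : ℕ) (hpoly : ∀ a : Fin r → ℤ, (∀ i, |a i| ≤ (H : ℤ)) →
      ∃ P : ℤ[X], P ≠ 0 ∧ P.natDegree ≤ Δ ∧ (∀ i, |P.coeff i| ≤ ((CH : ℕ) : ℤ) ^ Δ) ∧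
        aeval (lin ω a) P = 0)
    (a : Fin r → ℤ) (ha : a ∈ Exc ω m M H) :
    a ∈ vbox r H ∧ (¬ Irrational (lin ω a) ∨ ∃ b : ℕ, 2 ≤ b ∧
      (CH ^ Δ ≤ b ^ κ → b < M) ∧ a ∈ badv ω b (Nat.log b H) (min b m - 1) H) := by
  classical
  obtain ⟨hbox, hbad⟩ := ha
  refine ⟨mem_vbox.mpr hbox, ?_⟩
  change ¬ (Irrational (lin ω a) ∧ ∀ b : ℕ, 2 ≤ b →
    min b m ≤ ((Finset.range (M + Nat.log b H)).image (digit b (lin ω a))).card) at hbad
  by_cases hirr : Irrational (lin ω a)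
  · right
    rw [not_and] at hbad
    have h1 := hbad hirr
    push Not at h1
    obtain ⟨b, hb, hcard⟩ := h1
    refine ⟨b, hb, ?_, ?_⟩
    · intro hle
      by_contra hcon
      obtain ⟨P, hP0, hPd, hPc, hr⟩ := hpoly a hbox
      have h2 := hM b (not_lt.mp hcon) (lin ω a) hirr P hP0 hPd
        (fun i => (hPc i).trans (by exact_mod_cast hle)) hr
      have h3 : ((Finset.range M).image (digit b (lin ω a))).card
          ≤ ((Finset.range (M + Nat.log b H)).image (digit b (lin ω a))).card :=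
        Finset.card_le_card (Finset.image_subset_image (Finset.range_mono (by omega)))
      have h4 : min b m ≤ m := min_le_right _ _
      omega
    · rw [badv, Finset.mem_filter]
      refine ⟨mem_vbox.mpr hbox, ?_⟩
      have h3 : ((Finset.range (Nat.log b H)).image (digit b (lin ω a))).card
          ≤ ((Finset.range (M + Nat.log b H)).image (digit b (lin ω a))).card :=
        Finset.card_le_card (Finset.image_subset_image (Finset.range_mono (by omega)))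
      omega
  · left; exact hirr

theorem card_vbox (r H : ℕ) : (vbox r H).card = (2 * H + 1) ^ r := by
  rw [vbox, Fintype.card_piFinset]
  simp only [Int.card_Icc]
  rw [Finset.prod_const, Finset.card_univ, Fintype.card_fin]
  congr 1
  omega

theorem ncard_exc_le {r : ℕ} (ω : Fin r → ℝ) (m M H : ℕ) (U : Finset (Fin r → ℤ))
    (h : ∀ a ∈ Exc ω m M H, a ∈ U) : (Exc ω m M H).ncard ≤ U.card := by
  have h1 : Exc ω m M H ⊆ (U : Set (Fin r → ℤ)) := h
  have h2 := Set.ncard_le_ncard h1 U.finite_toSet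
  rwa [Set.ncard_coe_finset] at h2

theorem main {r : ℕ} (ω : Fin r → ℝ) (halg : ∀ i, IsAlgebraic ℚ (ω i)) (i0 : Fin r)
    (hi0 : Irrational (ω i0)) {f : ℤ[X]} (f0 : f ≠ 0) (D : ℕ) (hD : 2 ≤ D) (hf : f.natDegree ≤ D)
    (hr : aeval (ω i0) f = 0) (m : ℕ) (hm : 2 ≤ m) (δ : ℝ) (hδ : δ < (1 - th m) / (D - 1)) :
    ∃ (M : ℕ) (C : ℝ), ∀ H : ℕ, 1 ≤ H →
      ((Exc ω m M H).ncard : ℝ) ≤ C * (H : ℝ) ^ ((r : ℝ) - δ) := by
  classical
  have hr1 : 1 ≤ r := by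
    have := i0.2
    omega
  set γ : ℝ := (1 - th m) / (D - 1) with hγ
  have hD' : (2 : ℝ) ≤ D := by exact_mod_cast hD
  have hth0 := th_nonneg hm
  have hγ1 : γ ≤ 1 := by
    rw [hγ, div_le_one (by linarith)]; linarith
  set β : ℝ := (γ - δ) / (m + 1) with hβdef
  have hβ : 0 < β := div_pos (by linarith) (by positivity)
  obtain ⟨A, hA1, hbadt⟩ := badt_real hi0 f0 D hD hf hr
  obtain ⟨Δ, C0, hpoly⟩ := exists_poly ω halg
  -- b > H ^ β gives (C0 H) ^ Δ ≤ b ^ κ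
  set κ1 : ℕ := ⌈1 / β⌉₊ with hκ1def
  have hκ1 : 1 / β ≤ κ1 := Nat.le_ceil _
  set κ : ℕ := (C0 + κ1) * Δ with hκdef
  obtain ⟨M, hM⟩ := Pool.Agent.Helper2.Digits.many_digits Δ κ m
  set C1 : ℝ := (2 * (M : ℝ) ^ κ1 + 1) ^ r with hC1
  set C2 : ℝ := (3 : ℝ) ^ r * (1 + 8 * A) with hC2
  have hC10 : 0 ≤ C1 := by positivity
  have hC20 : 0 ≤ C2 := by positivity
  refine ⟨M, C1 + C2, fun H hH => ?_⟩
  have hH1 : (1 : ℝ) ≤ H := by exact_mod_cast hH
  have hpow1 : (1 : ℝ) ≤ (H : ℝ) ^ ((r : ℝ) - δ) := by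
    apply Real.one_le_rpow hH1
    have : (1 : ℝ) ≤ r := by exact_mod_cast hr1
    linarith
  have hcases := fun a ha => exc_cases ω m κ M Δ hM H (C0 * H) (hpoly H hH) a ha
  have hkey : ∀ b : ℕ, 2 ≤ b → H ≤ b ^ κ1 → (C0 * H) ^ Δ ≤ b ^ κ := by
    intro b hb hle
    rw [hκdef, pow_mul, pow_add]
    apply Nat.pow_le_pow_left
    have h1 : C0 ≤ b ^ C0 := (Nat.lt_pow_self (by omega)).le
    exact Nat.mul_le_mul h1 hle
  rcases le_or_gt H (M ^ κ1) with hHM | hHM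
  · have h2 := ncard_exc_le ω m M H (vbox r H) (fun a ha => (hcases a ha).1)
    rw [card_vbox] at h2
    have h3 : ((Exc ω m M H).ncard : ℝ) ≤ (2 * (H : ℝ) + 1) ^ r := by exact_mod_cast h2
    have h4 : (H : ℝ) ≤ (M : ℝ) ^ κ1 := by exact_mod_cast hHM
    have h5 : (2 * (H : ℝ) + 1) ^ r ≤ C1 := by rw [hC1]; gcongr
    calc ((Exc ω m M H).ncard : ℝ) ≤ C1 := h3.trans h5
      _ ≤ (C1 + C2) * 1 := by linarith
      _ ≤ _ := by gcongr
  · set X : ℝ := (H : ℝ) ^ β with hX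
    have hX1 : 1 ≤ X := Real.one_le_rpow hH1 hβ.le
    set R0 : Finset (Fin r → ℤ) := (vbox r H).filter fun a => ¬ Irrational (lin ω a) with hR0
    set U : Finset (Fin r → ℤ) := R0 ∪ (Finset.Icc 2 ⌊X⌋₊).biUnion fun b =>
      badv ω b (Nat.log b H) (min b m - 1) H with hU
    have h2 := ncard_exc_le ω m M H U (fun a ha => by
      obtain ⟨hbox, hcase⟩ := hcases a ha
      rw [hU, Finset.mem_union]
      rcases hcase with hrat | ⟨b, hb, hHb, hbad⟩
      · left; rw [hR0, Finset.mem_filter]; exact ⟨hbox, hrat⟩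
      · right
        rw [Finset.mem_biUnion]
        refine ⟨b, ?_, hbad⟩
        have h3 : b ^ κ1 < H := by
          by_contra hcon
          have h4 := hHb (hkey b hb (not_lt.mp hcon))
          have h5 : H ≤ M ^ κ1 := (not_lt.mp hcon).trans (Nat.pow_le_pow_left h4.le κ1)
          omega
        rw [Finset.mem_Icc]
        exact ⟨hb, Nat.le_floor (small_b hβ hκ1 hH h3)⟩)
    have hbase : (2 * (H : ℝ) + 1) ^ (r - 1) ≤ 3 ^ r * (H : ℝ) ^ (r - 1) := by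
      calc (2 * (H : ℝ) + 1) ^ (r - 1) ≤ (3 * (H : ℝ)) ^ (r - 1) := by gcongr; linarith
        _ = 3 ^ (r - 1) * (H : ℝ) ^ (r - 1) := mul_pow _ _ _
        _ ≤ 3 ^ r * (H : ℝ) ^ (r - 1) := by
            gcongr
            · norm_num
            · omega
    have hR0c : (R0.card : ℝ) ≤ 3 ^ r * (H : ℝ) ^ (r - 1) := by
      have h3 := rat_card ω i0 hi0 H R0 (Finset.filter_subset _ _) (fun a ha => by
        rw [hR0, Finset.mem_filter] at ha; exact ha.2)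
      rw [one_mul] at h3
      have h4 : (R0.card : ℝ) ≤ (2 * (H : ℝ) + 1) ^ (r - 1) := by exact_mod_cast h3
      exact h4.trans hbase
    have hbv : ∀ b ∈ Finset.Icc 2 ⌊X⌋₊, ((badv ω b (Nat.log b H) (min b m - 1) H).card : ℝ) ≤
        (8 * A * X ^ m * (H : ℝ) ^ (1 - γ)) * (3 ^ r * (H : ℝ) ^ (r - 1)) := by
      intro b hb
      rw [Finset.mem_Icc] at hb
      have hbX : (b : ℝ) ≤ X := (Nat.le_floor_iff (by linarith)).mp hb.2
      set B : ℕ := ⌊8 * A * (b : ℝ) ^ m * (H : ℝ) ^ (1 - γ)⌋₊ with hB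
      have h3 := badv_card ω i0 b (Nat.log b H) (min b m - 1) H B (fun c => by
        rw [hB]
        exact Nat.le_floor (hbadt m b H c hm hb.1 hH))
      have h4 : ((badv ω b (Nat.log b H) (min b m - 1) H).card : ℝ) ≤
          (B : ℝ) * (2 * (H : ℝ) + 1) ^ (r - 1) := by exact_mod_cast h3
      refine h4.trans ?_
      have h5 : (B : ℝ) ≤ 8 * A * X ^ m * (H : ℝ) ^ (1 - γ) := by
        refine (Nat.floor_le (by positivity)).trans ?_
        gcongr
      gcongr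
    have h3 : (U.card : ℝ) ≤ 3 ^ r * (H : ℝ) ^ (r - 1) +
        X * ((8 * A * X ^ m * (H : ℝ) ^ (1 - γ)) * (3 ^ r * (H : ℝ) ^ (r - 1))) := by
      have h4 : (U.card : ℝ) ≤ R0.card + ∑ b ∈ Finset.Icc 2 ⌊X⌋₊,
          ((badv ω b (Nat.log b H) (min b m - 1) H).card : ℝ) := by
        have h5 : U.card ≤ R0.card + ∑ b ∈ Finset.Icc 2 ⌊X⌋₊,
          (badv ω b (Nat.log b H) (min b m - 1) H).card := by
          rw [hU]
          exact (Finset.card_union_le _ _).trans (Nat.add_le_add_left Finset.card_biUnion_le _)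
        exact_mod_cast h5
      refine h4.trans (add_le_add hR0c ?_)
      calc ∑ b ∈ Finset.Icc 2 ⌊X⌋₊, ((badv ω b (Nat.log b H) (min b m - 1) H).card : ℝ)
          ≤ ∑ _b ∈ Finset.Icc 2 ⌊X⌋₊,
              ((8 * A * X ^ m * (H : ℝ) ^ (1 - γ)) * (3 ^ r * (H : ℝ) ^ (r - 1))) :=
            Finset.sum_le_sum hbv
        _ = ((Finset.Icc 2 ⌊X⌋₊).card : ℝ) *
              ((8 * A * X ^ m * (H : ℝ) ^ (1 - γ)) * (3 ^ r * (H : ℝ) ^ (r - 1))) := by
            rw [Finset.sum_const, nsmul_eq_mul]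
        _ ≤ _ := by
            have h6 : ((Finset.Icc 2 ⌊X⌋₊).card : ℝ) ≤ X := by
              rw [Nat.card_Icc]
              have h7 : ((⌊X⌋₊ + 1 - 2 : ℕ) : ℝ) ≤ (⌊X⌋₊ : ℝ) := by exact_mod_cast (by omega)
              exact h7.trans (Nat.floor_le (by linarith))
            gcongr
    have h9 : X ^ (m + 1) = (H : ℝ) ^ (γ - δ) := by
      rw [hX, ← Real.rpow_natCast, ← Real.rpow_mul (by linarith)]
      congr 1
      rw [hβdef]
      push_cast
      exact div_mul_cancel₀ _ (by positivity)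
    have hcastr : (((r - 1 : ℕ)) : ℝ) = (r : ℝ) - 1 := by
      rw [Nat.cast_sub hr1, Nat.cast_one]
    have h10 : (H : ℝ) ^ ((r : ℝ) - δ)
        = (H : ℝ) ^ (γ - δ) * (H : ℝ) ^ (1 - γ) * (H : ℝ) ^ (r - 1) := by
      rw [← Real.rpow_natCast (H : ℝ) (r - 1), ← Real.rpow_add (by linarith),
        ← Real.rpow_add (by linarith), hcastr]
      congr 1
      ring
    have h11 : (H : ℝ) ^ (r - 1) ≤ (H : ℝ) ^ ((r : ℝ) - δ) := by
      rw [← Real.rpow_natCast (H : ℝ) (r - 1), hcastr]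
      exact Real.rpow_le_rpow_of_exponent_le hH1 (by linarith)
    have h12 : ((Exc ω m M H).ncard : ℝ) ≤ U.card := by exact_mod_cast h2
    refine h12.trans (h3.trans ?_)
    calc 3 ^ r * (H : ℝ) ^ (r - 1) +
        X * ((8 * A * X ^ m * (H : ℝ) ^ (1 - γ)) * (3 ^ r * (H : ℝ) ^ (r - 1)))
        = 3 ^ r * (H : ℝ) ^ (r - 1) + 3 ^ r * (8 * A) *
            (X ^ (m + 1) * (H : ℝ) ^ (1 - γ) * (H : ℝ) ^ (r - 1)) := by ring
      _ ≤ 3 ^ r * (H : ℝ) ^ ((r : ℝ) - δ) + 3 ^ r * (8 * A) * (H : ℝ) ^ ((r : ℝ) - δ) := by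
          rw [h9, ← h10]
          gcongr
      _ = C2 * (H : ℝ) ^ ((r : ℝ) - δ) := by rw [hC2]; ring
      _ ≤ _ := by gcongr; linarith

end Pool.Agent.Helper86.NF
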