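import Pool.Agent.Helper86.NF.Vec

/-!
# A bounded annihilating polynomial of an integer combination of algebraic numbers
-/

set_option autoImplicit false

namespace Pool.Agent.Helper86.NF

open Finset Polynomial Pool.Agent.Helper86.AA

theorem exists_poly {r : ℕ} (ω : Fin r → ℝ) (halg : ∀ i, IsAlgebraic ℚ (ω i)) :
    ∃ Δ C : ℕ, ∀ H : ℕ, 1 ≤ H → ∀ a : Fin r → ℤ, (∀ i, |a i| ≤ (H : ℤ)) →
      ∃ P : ℤ[X], P ≠ 0 ∧ P.natDegree ≤ Δ ∧ (∀ i, |P.coeff i| ≤ ((C * H : ℕ) : ℤ) ^ Δ) ∧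
        aeval (lin ω a) P = 0 := by
  classical
  let K := IntermediateField.adjoin ℚ (Set.range ω)
  have : FiniteDimensional ℚ K := IntermediateField.finiteDimensional_adjoin (by
    rintro x ⟨i, rfl⟩
    exact (halg i).isIntegral)
  have : NumberField K := ⟨⟩
  let ω' : Fin r → K := fun i => ⟨ω i, IntermediateField.subset_adjoin ℚ _ ⟨i, rfl⟩⟩
  have hint : ∃ d : ℤ, d ≠ 0 ∧ ∀ i, IsIntegral ℤ (d • ω' i) := by
    have halgK : Algebra.IsAlgebraic ℤ K := by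
      refine ⟨fun z => ?_⟩
      exact (IsFractionRing.isAlgebraic_iff ℤ ℚ K).mpr (Algebra.IsAlgebraic.isAlgebraic z)
    obtain ⟨d, hd, h⟩ := Algebra.IsAlgebraic.exists_integral_multiples ℤ (Finset.univ.image ω')
    exact ⟨d, hd, fun i => h _ (Finset.mem_image_of_mem _ (Finset.mem_univ i))⟩
  obtain ⟨d, hd0, hd⟩ := hint
  obtain ⟨B0, hB0⟩ : ∃ B0 : ℕ, ∀ (φ : K →+* ℂ) (i : Fin r), ‖φ (d • ω' i)‖ ≤ B0 := by
    refine ⟨∑ φ : K →+* ℂ, ∑ i : Fin r, ⌈‖φ (d • ω' i)‖⌉₊, fun φ i => ?_⟩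
    refine (Nat.le_ceil _).trans ?_
    have h1 : ⌈‖φ (d • ω' i)‖⌉₊ ≤ ∑ j : Fin r, ⌈‖φ (d • ω' j)‖⌉₊ :=
      Finset.single_le_sum (f := fun j : Fin r => ⌈‖φ (d • ω' j)‖⌉₊) (fun _ _ => Nat.zero_le _)
        (Finset.mem_univ i)
    have h2 : ∑ j : Fin r, ⌈‖φ (d • ω' j)‖⌉₊ ≤ ∑ ψ : K →+* ℂ, ∑ j : Fin r, ⌈‖ψ (d • ω' j)‖⌉₊ :=
      Finset.single_le_sum (f := fun ψ : K →+* ℂ => ∑ j : Fin r, ⌈‖ψ (d • ω' j)‖⌉₊)
        (fun _ _ => Nat.zero_le _) (Finset.mem_univ φ)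
    exact_mod_cast h1.trans h2
  set n : ℕ := Module.finrank ℚ K with hn
  refine ⟨n, d.natAbs * (2 * (r * B0 + 1)), fun H hH a ha => ?_⟩
  set x' : K := ∑ i, a i • (d • ω' i) with hx'
  have hx'int : IsIntegral ℤ x' := by
    rw [hx']
    exact IsIntegral.sum _ fun i _ => (hd i).smul (a i)
  have hcast : ((x' : K) : ℝ) = (d : ℝ) * lin ω a := by
    rw [hx', lin, Finset.mul_sum]
    push_cast
    refine Finset.sum_congr rfl fun i _ => ?_
    simp only [ω', zsmul_eq_mul]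
    ring
  have hnorm : ∀ φ : K →+* ℂ, ‖φ x'‖ ≤ (r * B0 * H : ℝ) := by
    intro φ
    rw [hx', map_sum]
    refine (norm_sum_le _ _).trans ?_
    calc ∑ i, ‖φ (a i • (d • ω' i))‖ ≤ ∑ _i : Fin r, (B0 * H : ℝ) := by
          refine Finset.sum_le_sum fun i _ => ?_
          rw [zsmul_eq_mul, map_mul, norm_mul, map_intCast]
          have h1 : ‖((a i : ℤ) : ℂ)‖ ≤ H := by
            rw [Complex.norm_intCast]
            exact_mod_cast ha i
          have h2 := hB0 φ i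
          calc ‖((a i : ℤ) : ℂ)‖ * ‖φ (d • ω' i)‖ ≤ H * B0 := by gcongr
            _ = B0 * H := mul_comm _ _
      _ = r * B0 * H := by
          rw [Finset.sum_const, Finset.card_univ, Fintype.card_fin, nsmul_eq_mul]; ring
  set Q : ℤ[X] := minpoly ℤ x' with hQ
  have hQmap : minpoly ℚ x' = Q.map (algebraMap ℤ ℚ) :=
    minpoly.isIntegrallyClosed_eq_field_fractions' ℚ hx'int
  have hQmonic : Q.Monic := minpoly.monic hx'int
  have hQdeg : Q.natDegree ≤ n := by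
    have h1 : Q.natDegree = (minpoly ℚ x').natDegree := by
      rw [hQmap, hQmonic.natDegree_map]
    rw [h1]
    exact minpoly.natDegree_le x'
  have hQc : ∀ i, |(Q.coeff i : ℝ)| ≤ (2 * ((r : ℝ) * B0 + 1) * H) ^ n := by
    intro i
    have h1 := NumberField.Embeddings.coeff_bdd_of_norm_le (A := ℂ) hnorm i
    rw [hQmap, Polynomial.coeff_map, ← hn] at h1
    have h2 : ‖(algebraMap ℤ ℚ) (Q.coeff i)‖ = |(Q.coeff i : ℝ)| := by
      simp only [eq_intCast]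
      rw [← Rat.norm_cast_real, Real.norm_eq_abs]
      push_cast
      rfl
    rw [h2] at h1
    have hH1 : (1 : ℝ) ≤ H := by exact_mod_cast hH
    have h3 : max ((r : ℝ) * B0 * H) 1 ≤ ((r : ℝ) * B0 + 1) * H := by
      have : (0 : ℝ) ≤ (r : ℝ) * B0 := by positivity
      apply max_le <;> nlinarith
    have h4 : ((n.choose (n / 2) : ℕ) : ℝ) ≤ 2 ^ n := by
      exact_mod_cast Nat.choose_le_two_pow n (n / 2)
    calc |(Q.coeff i : ℝ)| ≤ max ((r : ℝ) * B0 * H) 1 ^ n * (n.choose (n / 2) : ℕ) := h1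
      _ ≤ (((r : ℝ) * B0 + 1) * H) ^ n * 2 ^ n := by gcongr
      _ = (2 * ((r : ℝ) * B0 + 1) * H) ^ n := by rw [← mul_pow]; congr 1; ring
  refine ⟨Q.comp (C d * X), ?_, ?_, ?_, ?_⟩
  · intro h0
    have h1 := congrArg (fun p : ℤ[X] => p.coeff Q.natDegree) h0
    simp only [Polynomial.comp_C_mul_X_coeff, Polynomial.coeff_zero] at h1
    rw [hQmonic.coeff_natDegree, one_mul] at h1
    exact pow_ne_zero _ hd0 h1
  · refine Polynomial.natDegree_comp_le.trans ?_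
    have h1 : (C d * X : ℤ[X]).natDegree ≤ 1 :=
      (Polynomial.natDegree_C_mul_le d X).trans Polynomial.natDegree_X_le
    calc Q.natDegree * (C d * X : ℤ[X]).natDegree ≤ n * 1 := Nat.mul_le_mul hQdeg h1
      _ = n := mul_one n
  · intro i
    rw [Polynomial.comp_C_mul_X_coeff]
    rcases le_or_gt i n with hi | hi
    · have h1 : ((|Q.coeff i * d ^ i| : ℤ) : ℝ) ≤
          (((((d.natAbs * (2 * (r * B0 + 1)) * H : ℕ) : ℤ) ^ n : ℤ)) : ℝ) := by
        push_cast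
        rw [abs_mul, abs_pow]
        have hd1 : (1 : ℝ) ≤ |(d : ℝ)| := by exact_mod_cast Int.one_le_abs hd0
        calc |(Q.coeff i : ℝ)| * |(d : ℝ)| ^ i
            ≤ (2 * ((r : ℝ) * B0 + 1) * H) ^ n * |(d : ℝ)| ^ n := by
              gcongr
              exact hQc i
          _ = _ := by rw [← mul_pow]; congr 1; ring
      exact Int.cast_le.mp h1
    · rw [Polynomial.coeff_eq_zero_of_natDegree_lt (by omega), zero_mul, abs_zero]
      positivity
  · rw [Polynomial.aeval_comp]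
    have h1 : aeval (lin ω a) (C d * X : ℤ[X]) = ((x' : K) : ℝ) := by
      rw [hcast, map_mul, Polynomial.aeval_C, Polynomial.aeval_X]
      simp
    rw [h1]
    have h2 : aeval (((x' : K) : ℝ)) Q = ((aeval x' Q : K) : ℝ) := by
      have := Polynomial.aeval_algebraMap_apply ℝ x' Q
      exact this
    rw [h2, hQ, minpoly.aeval]
    simp

end Pool.Agent.Helper86.NF
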