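import Pool.Agent.Helper86.NF.Approx

/-!
# Integer combinations of algebraic numbers: the count in one base
-/

set_option autoImplicit false

namespace Pool.Agent.Helper86.NF

open Finset Polynomial Pool.Agent.Helper86.AA

/-- the linear combination -/
noncomputable def lin {r : ℕ} (ω : Fin r → ℝ) (a : Fin r → ℤ) : ℝ := ∑ i, (a i : ℝ) * ω i

/-- integer vectors with entries in `[-H, H]` -/
noncomputable def vbox (r H : ℕ) : Finset (Fin r → ℤ) :=
  Fintype.piFinset fun _ => Finset.Icc (-(H : ℤ)) H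

theorem mem_vbox {r H : ℕ} {a : Fin r → ℤ} : a ∈ vbox r H ↔ ∀ i, |a i| ≤ (H : ℤ) := by
  rw [vbox, Fintype.mem_piFinset]
  refine forall_congr' fun i => ?_
  rw [Finset.mem_Icc, abs_le]

open Classical in
/-- vectors in the box for which the first `N` digits of `lin ω a` have at most `s` values -/
noncomputable def badv {r : ℕ} (ω : Fin r → ℝ) (b N s H : ℕ) : Finset (Fin r → ℤ) :=
  (vbox r H).filter fun a => ((Finset.range N).image (digit b (lin ω a))).card ≤ s

theorem lin_update {r : ℕ} (ω : Fin r → ℝ) (a v : Fin r → ℤ) (i0 : Fin r)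
    (h : Function.update a i0 0 = v) : lin ω a = (a i0 : ℝ) * ω i0 + lin ω v := by
  classical
  rw [lin, lin, ← Finset.add_sum_erase _ _ (Finset.mem_univ i0),
    ← Finset.add_sum_erase (Finset.univ) (fun i => (v i : ℝ) * ω i) (Finset.mem_univ i0)]
  have h1 : v i0 = 0 := by rw [← h, Function.update_self]
  rw [h1]
  have h2 : ∑ i ∈ Finset.univ.erase i0, (v i : ℝ) * ω i = ∑ i ∈ Finset.univ.erase i0, (a i : ℝ) * ω i := by
    refine Finset.sum_congr rfl fun i hi => ?_
    rw [← h, Function.update_of_ne (Finset.ne_of_mem_erase hi)]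
  rw [h2]
  push_cast
  ring

/-- counting by fibres over all coordinates but `i0` -/
theorem card_fibre {r : ℕ} (R : Finset (Fin r → ℤ)) (H : ℕ) (hR : R ⊆ vbox r H) (i0 : Fin r) (B : ℕ)
    (hB : ∀ v : Fin r → ℤ, (R.filter fun a => Function.update a i0 0 = v).card ≤ B) :
    R.card ≤ B * (2 * H + 1) ^ (r - 1) := by
  classical
  refine (Finset.card_le_mul_card_image (f := fun a : Fin r → ℤ => Function.update a i0 0)
    R B (fun v _ => hB v)).trans (Nat.mul_le_mul_left _ ?_)
  have hsub : R.image (fun a : Fin r → ℤ => Function.update a i0 0) ⊆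
      Fintype.piFinset (fun i => if i = i0 then ({0} : Finset ℤ) else Finset.Icc (-(H : ℤ)) H) := by
    intro v hv
    rw [Finset.mem_image] at hv
    obtain ⟨a, ha, rfl⟩ := hv
    have ha' := hR ha
    rw [vbox, Fintype.mem_piFinset] at ha'
    rw [Fintype.mem_piFinset]
    intro i
    by_cases hi : i = i0
    · subst hi; simp
    · rw [Function.update_of_ne hi, if_neg hi]
      exact ha' i
  refine (Finset.card_le_card hsub).trans ?_
  rw [Fintype.card_piFinset, ← Finset.mul_prod_erase _ _ (Finset.mem_univ i0), if_pos rfl,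
    Finset.card_singleton, one_mul]
  rw [Finset.prod_congr rfl (g := fun _ => 2 * H + 1) (fun i hi => by
    rw [if_neg (Finset.ne_of_mem_erase hi), Int.card_Icc]; omega)]
  rw [Finset.prod_const, Finset.card_erase_of_mem (Finset.mem_univ _), Finset.card_univ,
    Fintype.card_fin]

theorem badv_card {r : ℕ} (ω : Fin r → ℝ) (i0 : Fin r) (b N s H B : ℕ)
    (hB : ∀ c : ℝ, (badt b N s H (ω i0) c).card ≤ B) :
    (badv ω b N s H).card ≤ B * (2 * H + 1) ^ (r - 1) := by
  classical
  refine card_fibre _ H (Finset.filter_subset _ _) i0 B fun v => ?_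
  refine le_trans ?_ (hB (lin ω v))
  refine Finset.card_le_card_of_injOn (fun a : Fin r → ℤ => a i0) ?_ ?_
  · intro a ha
    rw [Finset.mem_coe, Finset.mem_filter, Finset.mem_filter] at ha
    obtain ⟨⟨ha, hc⟩, hv⟩ := ha
    rw [vbox, Fintype.mem_piFinset] at ha
    rw [Finset.mem_coe, badt, Finset.mem_filter]
    refine ⟨ha i0, ?_⟩
    rw [← lin_update ω a v i0 hv]
    exact hc
  · intro a ha a' ha' haa
    rw [Finset.mem_coe, Finset.mem_filter] at ha ha'
    funext i
    by_cases hi : i = i0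
    · rw [hi]; exact haa
    · have e1 := congrFun (ha.2.trans ha'.2.symm) i
      rwa [Function.update_of_ne hi, Function.update_of_ne hi] at e1

/-- rational values: few vectors -/
theorem rat_card {r : ℕ} (ω : Fin r → ℝ) (i0 : Fin r) (hi0 : Irrational (ω i0)) (H : ℕ)
    (R : Finset (Fin r → ℤ)) (hR : R ⊆ vbox r H) (hrat : ∀ a ∈ R, ¬ Irrational (lin ω a)) :
    R.card ≤ 1 * (2 * H + 1) ^ (r - 1) := by
  classical
  refine card_fibre R H hR i0 1 fun v => ?_
  rw [Finset.card_le_one]
  intro a ha a' ha'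
  rw [Finset.mem_filter] at ha ha'
  by_contra hne
  have h1 := hrat a ha.1
  have h2 := hrat a' ha'.1
  rw [Irrational, not_not] at h1 h2
  obtain ⟨x, hx⟩ := h1
  obtain ⟨y, hy⟩ := h2
  rw [lin_update ω a v i0 ha.2] at hx
  rw [lin_update ω a' v i0 ha'.2] at hy
  have h3 : a i0 ≠ a' i0 := by
    intro h4
    apply hne
    funext i
    by_cases hi : i = i0
    · rw [hi]; exact h4
    · have e1 := congrFun (ha.2.trans ha'.2.symm) i
      rwa [Function.update_of_ne hi, Function.update_of_ne hi] at e1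
  have h5 : ((a i0 : ℝ) - a' i0) ≠ 0 := by
    rw [sub_ne_zero]; exact_mod_cast h3
  apply hi0
  refine ⟨(x - y) / ((a i0 : ℚ) - a' i0), ?_⟩
  push_cast
  rw [div_eq_iff h5]
  linarith

end Pool.Agent.Helper86.NF
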